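import Pool.Agent.P.MP_754066_an.Defs
import Pool.Agent.P.MP_754066_an.Defs2
import Pool.Agent.P.MP_754066_an.Zero
import Pool.Agent.P.MP_754066_an.Smooth

open Pool.Agent.P.MP_754066_an

/-- For every `θ ∈ (0, 1)` and `k ≥ 0` the following are equivalent: (i) `k = 0`;
(ii) the interpolation statement of Q1 (with its constant) for all maps satisfying conditions 1-3
whose Gateaux derivative deviates from complex linearity by at most `k`; (iii) mere invariance of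
`[A0, A1]_θ` for such maps of class `C¹` on a single couple. -/
theorem Pool.Agent.Results.MP_754066_an.Threshold.result (θ k : ℝ) (h0 : 0 < θ) (h1 : θ < 1)
    (hk : 0 ≤ k) :
    [k = 0,
     ∀ (A0 A1 B0 B1 : Type)
      [NormedAddCommGroup A0] [NormedSpace ℂ A0] [CompleteSpace A0]
      [NormedAddCommGroup A1] [NormedSpace ℂ A1] [CompleteSpace A1]
      [NormedAddCommGroup B0] [NormedSpace ℂ B0] [CompleteSpace B0]
      [NormedAddCommGroup B1] [NormedSpace ℂ B1] [CompleteSpace B1]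
      (jA : A1 →L[ℂ] A0) (jB : B1 →L[ℂ] B0) (U : A0 → B0) (M0 M1 : ℝ),
      Function.Injective jA → Function.Injective jB →
      (∀ a b, ‖U a - U b‖ ≤ M0 * ‖a - b‖) →
      (∀ x, ∃ y, jB y = U (jA x) ∧ ‖y‖ ≤ M1 * ‖x‖) →
      GateauxDev k U →
      ∀ a ∈ interp jA θ,
        U a ∈ interp jB θ ∧ interpNorm jB θ (U a) ≤ max M0 M1 * interpNorm jA θ a,
     ∀ (A0 A1 : Type)
      [NormedAddCommGroup A0] [NormedSpace ℂ A0] [CompleteSpace A0]
      [NormedAddCommGroup A1] [NormedSpace ℂ A1] [CompleteSpace A1]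
      (j : A1 →L[ℂ] A0) (U : A0 → A0) (M0 M1 : ℝ), Function.Injective j →
      (∀ a b, ‖U a - U b‖ ≤ M0 * ‖a - b‖) →
      (∀ x, ∃ y, j y = U (j x) ∧ ‖y‖ ≤ M1 * ‖x‖) →
      ContDiff ℝ 1 U → GateauxDev k U →
      ∀ a ∈ interp j θ, U a ∈ interp j θ].TFAE := by
  tfae_have 1 → 2 := by
    rintro rfl A0 A1 B0 B1 _ _ _ _ _ _ _ _ _ _ _ _ jA jB U M0 M1 - hB c1 c2 c3 a ha
    exact strong_zero jA jB hB θ U M0 M1 c1 c2 c3 a ha
  tfae_have 2 → 3 := by
    intro h A0 A1 _ _ _ _ _ _ j U M0 M1 hj c1 c2 _ c3 a ha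
    exact (h A0 A1 A0 A1 j j U M0 M1 hj hj c1 c2 c3 a ha).1
  tfae_have 3 → 1 := by
    intro h
    by_contra hk0
    exact weak_fails h0 h1 (lt_of_le_of_ne hk (Ne.symm hk0)) h
  tfae_finish
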